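import Mathlib

set_option maxHeartbeats 400000

namespace Pool.Agent.H.MP_c44da7_al

universe u

section

variable {U : Type u} [NonAssocRing U]

/-- the extension -/
def Ext (U : Type u) [NonAssocRing U] : Type u := U × U × (U →+ U) × U

instance : AddCommGroup (Ext U) := inferInstanceAs (AddCommGroup (U × U × (U →+ U) × U))

/-- the product -/
def pr (x y : U × U × (U →+ U) × U) : U × U × (U →+ U) × U :=
  (x.1 * y.1, x.2.1 * y.1, x.2.2.1.comp (AddMonoidHom.mulRight y.1), y.2.2.1 x.2.1)

theorem pr_add (x y z : U × U × (U →+ U) × U) : pr x (y + z) = pr x y + pr x z := by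
  ext <;> simp [pr, mul_add]

theorem add_pr (x y z : U × U × (U →+ U) × U) : pr (x + y) z = pr x z + pr y z := by
  ext <;> simp [pr, add_mul]

theorem pr_zero (x : U × U × (U →+ U) × U) : pr x 0 = 0 := by
  ext <;> simp [pr]

theorem zero_pr (x : U × U × (U →+ U) × U) : pr 0 x = 0 := by
  ext <;> simp [pr]

instance : NonUnitalNonAssocRing (Ext U) :=
  { (inferInstance : AddCommGroup (Ext U)) with
    mul := pr
    left_distrib := pr_add
    right_distrib := add_pr
    zero_mul := zero_pr
    mul_zero := pr_zero }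

theorem ralt (h : ∀ x y : U, x * y * y = x * (y * y)) (x y : Ext U) :
    x * y * y = x * (y * y) := by
  have : ∀ x y : U × U × (U →+ U) × U, pr (pr x y) y = pr x (pr y y) := by
    intro x y
    ext <;> simp [pr, h]
  exact this x y

/-- the plain embedding -/
def emb : U →ₙ+* Ext U where
  toFun a := (a, 0, 0, 0)
  map_mul' a b := by
    have : ((a * b, 0, 0, 0) : U × U × (U →+ U) × U) = pr (a, 0, 0, 0) (b, 0, 0, 0) := by
      simp [pr]
    exact this
  map_zero' := rfl
  map_add' a b := by
    have : ((a + b, 0, 0, 0) : U × U × (U →+ U) × U) = (a, 0, 0, 0) + (b, 0, 0, 0) := by simp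
    exact this

/-- the diagonal embedding -/
def dia : U →ₙ+* Ext U where
  toFun a := (a, a, 0, 0)
  map_mul' a b := by
    have : ((a * b, a * b, 0, 0) : U × U × (U →+ U) × U) = pr (a, a, 0, 0) (b, b, 0, 0) := by
      simp [pr]
    exact this
  map_zero' := rfl
  map_add' a b := by
    have : ((a + b, a + b, 0, 0) : U × U × (U →+ U) × U) = (a, a, 0, 0) + (b, b, 0, 0) := by simp
    exact this

/-- first test element -/
def ex : Ext U := (0, 1, 0, 0)

/-- second test element -/
def ey : Ext U := (0, 0, AddMonoidHom.id _, 0)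

theorem left (a : U) : emb a * ex * ey - emb a * (ex * ey) = 0 := by
  rw [sub_eq_zero]
  show pr (pr (a, 0, 0, 0) ex) ey = pr (a, 0, 0, 0) (pr ex ey)
  simp [pr, ex, ey]

theorem right (a : U) (h : ex * ey * emb a - ex * (ey * emb a) = 0) : a = 0 := by
  rw [sub_eq_zero] at h
  have h' : pr (pr ex ey) (a, 0, 0, 0) = pr ex (pr ey (a, 0, 0, 0)) := h
  have := congrArg (fun z => z.2.2.2) h'
  simpa [pr, ex, ey] using this.symm

theorem left' (a : U) (h : dia a * emb 1 * ey - dia a * (emb 1 * ey) = 0) : a = 0 := by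
  rw [sub_eq_zero] at h
  have h' : pr (pr (a, a, 0, 0) (1, 0, 0, 0)) ey = pr (a, a, 0, 0) (pr (1, 0, 0, 0) ey) := h
  have := congrArg (fun z => z.2.2.2) h'
  simpa [pr, ey] using this

end

variable {A : Type u} [NonUnitalNonAssocRing A]

theorem ralt_unit (h : ∀ x y : A, x * y * y = x * (y * y)) (x y : Unitization ℤ A) :
    x * y * y = x * (y * y) := by
  ext
  · simp [mul_assoc]
  · simp [add_mul, mul_add, h, smul_mul_assoc, mul_smul_comm, smul_add, smul_smul, mul_comm]
    abel

/-- the inclusion in the unital hull -/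
def inc : A →ₙ+* Unitization ℤ A where
  toFun a := (a : Unitization ℤ A)
  map_mul' a b := Unitization.inr_mul ℤ a b
  map_zero' := Unitization.inr_zero ℤ
  map_add' a b := Unitization.inr_add ℤ a b

theorem inc_eq_zero {a : A} (h : inc a = 0) : a = 0 := by
  apply Unitization.inr_injective (R := ℤ)
  rw [Unitization.inr_zero]
  exact h

end Pool.Agent.H.MP_c44da7_al
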